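import Pool.Agent.Lib.helper19.Davies

set_option autoImplicit false

namespace Pool.Agent.Results.MP_8b9ec4_lc.Abelian

open Set MeasureTheory Pool.Agent.Lib.helper19.Davies

/-- naively Haar null (group written additively; `μ` applied to a set is its outer measure) -/
def NHN {G : Type} [AddGroup G] [TopologicalSpace G] (X : Set G) : Prop :=
  ∃ μ : @Measure G (borel G), μ univ = 1 ∧ ∀ g h : G, μ ((fun x => g + x + h) '' X) = 0

theorem result (G : Type) [AddCommGroup G] [TopologicalSpace G] [PolishSpace G]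
    [IsTopologicalAddGroup G] [Uncountable G] :
    ∃ X : ℕ → Set G, (∀ n, NHN (X n)) ∧ ⋃ n, X n = univ ∧ ¬ NHN (⋃ n, X n) := by
  obtain ⟨H, μ, h1, h2, h3⟩ := exists_subgroups (G := G)
  obtain ⟨χ, -, h⟩ := davies h1 _ univ rfl (fun _ => ∅) fun _ => finite_empty
  have e : ⋃ n, {x | χ x = n} = univ := eq_univ_of_forall fun x => mem_iUnion.2 ⟨_, rfl⟩
  refine ⟨fun n => {x | χ x = n}, fun n => ⟨μ n, h2 n, fun g k => h3 n _ ?_⟩, e, ?_⟩
  · refine ((h n (-(g + k))).image fun x => g + x + k).mono ?_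
    rintro _ ⟨⟨x, a, rfl⟩, b⟩
    exact ⟨x, ⟨trivial, a, by rwa [show x - -(g + k) = g + x + k by abel]⟩, rfl⟩
  · rintro ⟨ν, a, b⟩
    simpa [e, a] using b 0 0

end Pool.Agent.Results.MP_8b9ec4_lc.Abelian
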