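import Pool.Agent.Lib.helper19.Davies

set_option autoImplicit false

namespace Pool.Agent.Results.MP_8b9ec4_lc.Split

open Set MeasureTheory Cardinal Pool.Agent.Lib.helper19.Davies

/-- naively Haar null (group written additively; `μ` applied to a set is its outer measure) -/
def NHN {G : Type} [AddGroup G] [TopologicalSpace G] (X : Set G) : Prop :=
  ∃ μ : @Measure G (borel G), μ Set.univ = 1 ∧ ∀ g h : G, μ ((fun x => g + x + h) '' X) = 0

/-- `non(N) < cov(N)`: some non-null `T ⊆ [0,1]` is so small that no family of null sets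
indexed by `T` covers `[0,1]` -/
def NonLtCov : Prop := ∃ T : Set unitInterval, volume T ≠ 0 ∧
  ∀ N : T → Set unitInterval, (∀ t, volume (N t) = 0) → ⋃ t, N t ≠ Set.univ

theorem result :
    (NonLtCov → ∀ (G : Type) [AddGroup G] [TopologicalSpace G] [PolishSpace G]
      [IsTopologicalAddGroup G] (S : Set G), ¬ (NHN S ∧ NHN Sᶜ)) ∧
    (ℵ₁ = (𝔠 : Cardinal.{0}) → ∀ (G : Type) [AddCommGroup G] [TopologicalSpace G] [PolishSpace G]
      [IsTopologicalAddGroup G] [Uncountable G], ∃ S : Set G, NHN S ∧ NHN Sᶜ) := by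
  refine ⟨fun ⟨T, t1, t2⟩ G _ _ _ _ S ⟨⟨μ, a1, a2⟩, ν, b1, b2⟩ => ?_, fun ch G _ _ _ _ _ => ?_⟩
  · let _ := borel G
    have : BorelSpace G := ⟨rfl⟩
    have : IsProbabilityMeasure μ := ⟨a1⟩
    have : IsProbabilityMeasure ν := ⟨b1⟩
    obtain ⟨f, f1, rfl⟩ := μ.exists_measurable_map_eq
    obtain ⟨g, g1, rfl⟩ := ν.exists_measurable_map_eq
    obtain ⟨u, hu⟩ := (ne_univ_iff_exists_notMem _).1 (t2
      (fun t => g ⁻¹' ((fun x => -f t + x + 0) '' Sᶜ)) fun t =>
        le_zero_iff.1 ((Measure.le_map_apply g1.aemeasurable _).trans (b2 _ _).le))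
    refine t1 (measure_mono_null (fun t ht => ?_)
      (le_zero_iff.1 ((Measure.le_map_apply f1.aemeasurable _).trans (a2 0 (-g u)).le)))
    exact ⟨f t + g u, by_contra fun h => hu (mem_iUnion.2 ⟨⟨t, ht⟩, _, h, by simp⟩), by simp⟩
  · let _ := borel G
    have : BorelSpace G := ⟨rfl⟩
    obtain ⟨H, μ, h1, h2, h3⟩ := exists_subgroups (G := G)
    obtain ⟨S, hS⟩ := two h1 (by
      rw [ch, ← mk_real]
      exact mk_congr (PolishSpace.measurableEquivOfNotCountable not_countable not_countable).toEquiv)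
    refine ⟨S, ⟨μ 0, h2 0, fun g k => h3 0 _ ?_⟩, μ 1, h2 1, fun g k => h3 1 _ ?_⟩
    · refine ((hS (-(g + k))).1.image fun x => g + x + k).mono ?_
      rintro _ ⟨⟨x, a, rfl⟩, b⟩
      exact ⟨x, ⟨a, by rwa [show x - -(g + k) = g + x + k by abel]⟩, rfl⟩
    · refine ((hS (-(g + k))).2.image fun x => g + x + k).mono ?_
      rintro _ ⟨⟨x, a, rfl⟩, b⟩
      exact ⟨x, ⟨a, by rwa [show x - -(g + k) = g + x + k by abel]⟩, rfl⟩

end Pool.Agent.Results.MP_8b9ec4_lc.Split
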